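import Pool.Agent.Helper16.LS.Proj

open Pool.Agent.Helper5.SV

namespace Pool.Agent.Results.MP_e51904_co.IntegralProjection

/-- Let `S` be a finite set of points of real (m+1)-space, not contained in a hyperplane, and
`π` a surjective linear map onto real m-space such that the volumes of the simplices with
vertices in `π(S)` are integer multiples of `t(π(S))`. If every point of `π(S)` is a vertex
of a simplex with vertices in `π(S)` and positive volume at most `μ t(π(S))`, then
`T(S)/t(S)` is at least `(|S| - |π(S)|)/((m+1) μ)`. -/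
theorem result (m : ℕ) (S : Finset (Fin (m + 1) → ℝ))
    (hS : affineSpan ℝ (S : Set (Fin (m + 1) → ℝ)) = ⊤)
    (π : (Fin (m + 1) → ℝ) →ₗ[ℝ] (Fin m → ℝ)) (hπ : Function.Surjective π)
    (hint : ∀ v ∈ simplexVolumes (π '' (S : Set (Fin (m + 1) → ℝ))), ∃ k : ℕ,
      v = k * smallest (π '' (S : Set (Fin (m + 1) → ℝ))))
    (μ : ℝ) (hμ : ∀ b ∈ π '' (S : Set (Fin (m + 1) → ℝ)), ∃ y : Fin (m + 1) → (Fin m → ℝ),
      (∀ i, y i ∈ π '' (S : Set (Fin (m + 1) → ℝ))) ∧ y 0 = b ∧ 0 < simplexVolume y ∧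
      simplexVolume y ≤ μ * smallest (π '' (S : Set (Fin (m + 1) → ℝ)))) :
    ((S.card : ℝ) - (π '' (S : Set (Fin (m + 1) → ℝ))).ncard) / ((m + 1) * μ)
      ≤ largest (S : Set (Fin (m + 1) → ℝ)) / smallest (S : Set (Fin (m + 1) → ℝ)) :=
  Pool.Agent.Helper16.LS.integral_projection S hS π hπ hint μ hμ

end Pool.Agent.Results.MP_e51904_co.IntegralProjection
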