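import Pool.Agent.Helper16.LS.Conj
import Pool.Agent.Helper16.LS.Model

open Pool.Agent.Helper5.SV Pool.Agent.Helper16.LS

namespace Pool.Agent.Results.MP_e51904_co.LatticeSets

/-- `S` is an `n`-point subset of real m-space, not contained in a hyperplane, and the
volume of every simplex with vertices in `S` is an integer multiple of `t(S)`. -/
def Admissible (m n : ℕ) (S : Finset (Fin m → ℝ)) : Prop :=
  S.card = n ∧ affineSpan ℝ (S : Set (Fin m → ℝ)) = ⊤ ∧
    ∀ v ∈ simplexVolumes (S : Set (Fin m → ℝ)), ∃ k : ℕ,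
      v = k * smallest (S : Set (Fin m → ℝ))

/-- For `m ≥ 2` and `n > (72 m^4)^m` the smallest value of `T(S)/t(S)` over the sets `S`
of `n` points all of whose simplex volumes are integer multiples of `t(S)` is `[(n-1)/m]`;
it is attained by `S_{m,n}`, and if `m` divides `n` only by the images of `S_{m,n}` under
affine bijections. -/
theorem result (m n : ℕ) (hm : 2 ≤ m) (hn : (72 * m ^ 4) ^ m < n) :
    (∀ S : Finset (Fin m → ℝ), Admissible m n S →
      (((n - 1) / m : ℕ) : ℝ)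
        ≤ largest (S : Set (Fin m → ℝ)) / smallest (S : Set (Fin m → ℝ))) ∧
    (∃ S : Finset (Fin m → ℝ), Admissible m n S ∧ (S : Set (Fin m → ℝ)) = modelSet m n ∧
      largest (S : Set (Fin m → ℝ)) / smallest (S : Set (Fin m → ℝ))
        = (((n - 1) / m : ℕ) : ℝ)) ∧
    (m ∣ n → ∀ S : Finset (Fin m → ℝ), Admissible m n S →
      largest (S : Set (Fin m → ℝ)) / smallest (S : Set (Fin m → ℝ))
        = (((n - 1) / m : ℕ) : ℝ) →
      ∃ Θ : (Fin m → ℝ) ≃ᵃ[ℝ] (Fin m → ℝ), Θ '' (S : Set (Fin m → ℝ)) = modelSet m n) := by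
  refine ⟨fun S hS => (conj m n hm hn S hS.1 hS.2.1 hS.2.2).1, ?_,
    fun hmn S hS => (conj m n hm hn S hS.1 hS.2.1 hS.2.2).2 hmn⟩
  obtain ⟨d, rfl⟩ : ∃ d, m = d + 1 := ⟨m - 1, by omega⟩
  have hn2 : d + 2 ≤ n := by
    have h1 : d + 1 ≤ (72 * (d + 1) ^ 4) ^ (d + 1) := by
      have h2 : d + 1 ≤ 72 * (d + 1) ^ 4 := by
        have h3 : d + 1 ≤ (d + 1) ^ 4 := Nat.le_self_pow (by norm_num) _
        omega
      exact h2.trans (Nat.le_self_pow (by omega) _)
    omega
  obtain ⟨S, h1, h2, h3, h4, h5⟩ := model_facts hn2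
  exact ⟨S, ⟨h2, h3, h4⟩, h1, h5⟩

end Pool.Agent.Results.MP_e51904_co.LatticeSets
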