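import Pool.Agent.Helper5.SV.Main

open Pool.Agent.Helper5.SV

/-- For every m >= 2 and n >= m+1:
f_m(n) >= (n - m) / (m! (2 log 2)^(m-1)). -/
theorem Pool.Agent.Results.MP_e51904_co.LinearLowerBound.result :
    ∀ m n : ℕ, 2 ≤ m → m + 1 ≤ n →
      ((n : ℝ) - m) / ((m.factorial : ℝ) * (2 * Real.log 2) ^ (m - 1)) ≤ ratio m n :=
  fun m n hm hn => main m n (by omega) hn
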