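import Pool.Agent.Helper80.VR.Final

open Pool.Agent.Helper5.SV

/-- For all m >= 2 and n >= m+1: f_m(n) >= (n + m^2 - 1) / (2 m (m + 1)). -/
theorem Pool.Agent.Results.MP_e51904_co.PolynomialLowerBound.result :
    ∀ m n : ℕ, 2 ≤ m → m + 1 ≤ n →
      ((n : ℝ) + m ^ 2 - 1) / (2 * m * (m + 1)) ≤ ratio m n :=
  fun m n hm hn => Pool.Agent.Helper80.VR.main m n (by omega) hn
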